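import Pool.Agent.J4.H93.MinGrp

/-!
# Q1: if `A` is a minimal abelian group and `K` is compact, then `A × K` is c-minimal

The definitions `IsMinimalGroup` and `IsCMinimalGroup` are in `Pool.Agent.J4.H93.MinGrp`.
-/

set_option autoImplicit false

namespace Pool.Agent.Results.MP_35204b_gt.ClosedSubgroupsMinimal

open Pool.Agent.J4.H93.MinGrp

universe u v

/-- **Positive answer to Q1.** Let `A` be a minimal abelian topological group and `K` a compact
Hausdorff topological group. Then every closed subgroup of `A × K` is minimal. -/
theorem result (A : Type u) [CommGroup A] [TopologicalSpace A]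
    (K : Type v) [Group K] [TopologicalSpace K] [IsTopologicalGroup K] [T2Space K] [CompactSpace K]
    (hA : IsMinimalGroup A) : IsCMinimalGroup (A × K) :=
  cminimal hA

end Pool.Agent.Results.MP_35204b_gt.ClosedSubgroupsMinimal
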