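import Pool.Agent.J4.H93.MinGrp

/-!
# Q2: if `A` is a totally minimal abelian group and `K` is compact, then `A × K` is c-totally
minimal

The definitions `IsMinimalGroup`, `IsTotallyMinimalGroup` and `IsCTotallyMinimalGroup` are in
`Pool.Agent.J4.H93.MinGrp`.
-/

set_option autoImplicit false

namespace Pool.Agent.Results.MP_35204b_gt.ClosedSubgroupsTotallyMinimal

open Pool.Agent.J4.H93.MinGrp

universe u v

/-- **Positive answer to Q2.** Let `A` be a totally minimal abelian topological group and `K` a
compact Hausdorff topological group. Then every closed subgroup of `A × K` is totally minimal. -/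
theorem result (A : Type u) [CommGroup A] [TopologicalSpace A]
    (K : Type v) [Group K] [TopologicalSpace K] [IsTopologicalGroup K] [T2Space K] [CompactSpace K]
    (hA : IsTotallyMinimalGroup A) : IsCTotallyMinimalGroup (A × K) :=
  ctotallyMinimal hA

end Pool.Agent.Results.MP_35204b_gt.ClosedSubgroupsTotallyMinimal
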